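import Mathlib

namespace Pool.Agent.Results.MP_d39372_al.HalfKer

def IsLoop (Q : Type*) [Mul Q] [One Q] : Prop :=
  (∀ x : Q, 1 * x = x ∧ x * 1 = x) ∧ (∀ a : Q, Function.Bijective (fun x => a * x)) ∧
    ∀ a : Q, Function.Bijective (fun y => y * a)

def IsNormalSubloop {Q : Type*} [Mul Q] [One Q] (K : Set Q) : Prop :=
  (1 : Q) ∈ K ∧ (∀ a ∈ K, ∀ b ∈ K, a * b ∈ K) ∧ (∀ a ∈ K, ∀ x, a * x ∈ K → x ∈ K) ∧
    (∀ a ∈ K, ∀ y, y * a ∈ K → y ∈ K) ∧
    ∀ x y : Q, (fun k => x * k) '' K = (fun k => k * x) '' K ∧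
      (fun k => x * (y * k)) '' K = (fun k => (x * y) * k) '' K ∧
      (fun k => (k * x) * y) '' K = (fun k => k * (x * y)) '' K

structure MF (Q : Type*) [Mul Q] [One Q] (i : Q → Q) : Prop where
  l1 : ∀ x z : Q, i x * (x * z) = z
  l2 : ∀ x z : Q, x * (i x * z) = z
  r1 : ∀ x z : Q, (z * x) * i x = z
  r2 : ∀ x z : Q, (z * i x) * x = z
  ii : ∀ x : Q, i (i x) = x
  im : ∀ x y : Q, i (x * y) = i y * i x
  fl : ∀ x y : Q, x * (y * x) = (x * y) * x
  ml : ∀ x y z : Q, x * (y * (x * z)) = ((x * y) * x) * z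
  mr : ∀ x y z : Q, ((z * x) * y) * x = z * (x * (y * x))
  mm : ∀ x u v : Q, (x * u) * (v * x) = x * ((u * v) * x)

theorem exists_MF {Q : Type*} [Mul Q] [One Q] (hQ : IsLoop Q)
    (ml : ∀ x y z : Q, x * (y * (x * z)) = ((x * y) * x) * z) : ∃ i : Q → Q, MF Q i := by
  obtain ⟨h1, hL, hR⟩ := hQ
  choose i hi using fun x : Q => (hL x).2 1
  have hi : ∀ x, x * i x = 1 := hi
  have fl : ∀ x y : Q, x * (y * x) = (x * y) * x := fun x y => by
    have := ml x y 1
    rwa [(h1 _).2, (h1 _).2] at this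
  have l1 : ∀ x z : Q, i x * (x * z) = z := fun x z => by
    apply (hL x).1
    show x * (i x * (x * z)) = x * z
    rw [ml, hi, (h1 _).1]
  have hi' : ∀ x, i x * x = 1 := fun x => by
    have := l1 x 1
    rwa [(h1 _).2] at this
  have ii : ∀ x : Q, i (i x) = x := fun x => by
    apply (hL (i x)).1
    show i x * i (i x) = i x * x
    rw [hi, hi']
  have l2 : ∀ x z : Q, x * (i x * z) = z := fun x z => by
    have := l1 (i x) z
    rwa [ii] at this
  have r1 : ∀ x z : Q, (z * x) * i x = z := fun x z => by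
    have := ml x (i x * z) (i x)
    rw [hi, (h1 _).2, l2] at this
    exact this.symm
  have r2 : ∀ x z : Q, (z * i x) * x = z := fun x z => by
    have := r1 (i x) z
    rwa [ii] at this
  have im : ∀ x y : Q, i (x * y) = i y * i x := fun x y => by
    have e1 : i (x * y) * x = i y := by
      have := l1 (x * y) (i y)
      rwa [r1] at this
    rw [← e1, r1]
  have inj : ∀ a b : Q, i a = i b → a = b := fun a b h => by rw [← ii a, h, ii]
  have mr : ∀ x y z : Q, ((z * x) * y) * x = z * (x * (y * x)) := fun x y z => by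
    apply inj
    simp only [im]
    rw [ml]
  refine ⟨i, l1, l2, r1, r2, ii, im, fl, ml, mr, fun x u v => ?_⟩
  have := ml x (u * v) (i x * i v)
  rw [l2, r1] at this
  rw [this, ← im, r2, fl]

section
variable {Q Q' : Type*} [Mul Q] [One Q] [Mul Q'] [One Q'] {i : Q → Q} {φ : Q → Q'}

theorem main (M : MF Q i) (h' : IsLoop Q')
    (hφ : ∀ a b, φ (a * b) = φ a * φ b ∨ φ (a * b) = φ b * φ a) :
    (∀ u v, φ u = φ v → φ (i u * v) = 1 ∧ φ (v * i u) = 1) ∧
    ∀ x u v, φ u = φ v → φ (x * u) = φ (x * v) ∧ φ (u * x) = φ (v * x) := by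
  obtain ⟨l1, l2, r1, r2, ii, im, fl, ml, mr, mm⟩ := M
  obtain ⟨h1, hL, hR⟩ := h'
  have canc : ∀ a c : Q', (a = a * c ∨ a = c * a) → c = 1 := by
    rintro a c (h | h)
    · apply (hL a).1
      show a * c = a * 1
      rw [(h1 a).2, ← h]
    · apply (hR a).1
      show c * a = 1 * a
      rw [(h1 a).1, ← h]
  have kl : ∀ k u, φ k = 1 → φ (k * u) = φ u := fun k u hk => by
    rcases hφ k u with h | h <;> rw [h, hk]
    exacts [(h1 _).1, (h1 _).2]
  have kr : ∀ k u, φ k = 1 → φ (u * k) = φ u := fun k u hk => by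
    rcases hφ u k with h | h <;> rw [h, hk]
    exacts [(h1 _).2, (h1 _).1]
  have cl : ∀ u v, φ u = φ v → φ (i u * v) = 1 := fun u v h => by
    apply canc (φ u)
    have := hφ u (i u * v)
    rwa [l2, ← h] at this
  have cr : ∀ u v, φ u = φ v → φ (v * i u) = 1 := fun u v h => by
    apply canc (φ u)
    have := hφ (v * i u) u
    rw [r2, ← h] at this
    exact this.symm
  have ki : ∀ k, φ k = 1 → φ (i k) = 1 := fun k hk => by
    have e1 := kl k (i k * k) hk
    have e2 := kr k (i k) hk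
    rw [l2] at e1
    rw [← e2, ← e1, hk]
  have D : ∀ x u v, φ u = φ v → φ ((x * (x * u)) * x) = φ ((x * (x * v)) * x) := fun x u v h => by
    have hk := cl u v h
    have hv : v = u * (i u * v) := (l2 _ _).symm
    generalize i u * v = k at hk hv
    subst hv
    have e := ml x (x * u) (i x * (k * x))
    rw [l2, mm, fl x (u * k), fl x (x * (u * k))] at e
    rw [e, kr _ _ (cl _ _ (kl k x hk).symm)]
  have E : ∀ x u v, φ u = φ v → φ (x * ((u * x) * x)) = φ (x * ((v * x) * x)) := fun x u v h => by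
    have hk := cr u v h
    have hv : v = (v * i u) * u := (r2 _ _).symm
    generalize v * i u = k at hk hv
    subst hv
    have e := mr x (u * x) ((x * k) * i x)
    rw [r2, mm, ← fl x (k * u * x)] at e
    rw [e, kl _ _ (cr _ _ (kr k x hk).symm)]
  have T1 : ∀ x u v, φ (x * u) = φ (x * v) → φ (u * x) = φ (v * x) := fun x u v h => by
    have e := D (i x) _ _ (E x _ _ h)
    have aux : ∀ w, i x * (i x * (x * (x * w * x * x))) * i x = w * x := fun w => by
      rw [l1, ← fl (i x), r1, ← fl x w, l1]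
    rwa [aux, aux] at e
  have T2 : ∀ x u v, φ (u * x) = φ (v * x) → φ (x * u) = φ (x * v) := fun x u v h => by
    have e := T1 (i x) (x * (u * x)) (x * (v * x)) (by rwa [l1, l1])
    rwa [fl, fl, r1, r1] at e
  have two : ∀ x y x' y', φ x' = φ x → φ y' = φ y →
      (φ (x' * y') = φ x * φ y ∨ φ (x' * y') = φ y * φ x) := fun x y x' y' hx hy => by
    rw [← hx, ← hy]; exact hφ _ _
  have tri : ∀ A B p q r : Q', (p = A ∨ p = B) → (q = A ∨ q = B) → (r = A ∨ r = B) →
      p ≠ q → q ≠ r → p = r := by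
    rintro A B p q r (rfl | rfl) (rfl | rfl) (rfl | rfl) h1 h2 <;> first | rfl | exact absurd rfl h1 | exact absurd rfl h2
  have S : ∀ x y x' y', φ x' = φ x → φ y' = φ y → φ (x * y) = φ (x' * y') →
      φ (y * x) = φ (y' * x') := fun x y x' y' hx hy h => by
    by_cases c : φ (x * y) = φ (x' * y)
    · exact (T2 _ _ _ c).trans (T1 _ _ _ (c.symm.trans h))
    · refine tri _ _ _ _ _ (two y x y x rfl rfl) (two y x y x' rfl hx) (two y x y' x' hy hx)
        (fun e => c (T1 _ _ _ e)) (fun e => c (h.trans (T2 _ _ _ e).symm))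
  have I1 : ∀ x y k, φ k = 1 → φ ((x * k) * (k * y)) = φ (x * y) := fun x y k hk => by
    refine (S y x (k * y) (x * k) (kl _ _ hk) (kr _ _ hk) ?_).symm
    rw [mm, kl _ _ hk, kr _ _ hk]
  have I4a : ∀ x w k, φ k = 1 → φ (x * (k * w)) = φ (x * w) → φ (x * (i k * w)) = φ (x * w) := by
    intro x w k hk h
    have e : x * (i k * w) = (x * w) * (i (x * (k * w)) * (x * w)) := by
      have e1 := ml (x * w) (i (x * (k * w))) (i w)
      rw [r1, im x, r2, ← fl] at e1
      have e2 := mr w (i (k * w)) x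
      rw [e1, r2, im k w, fl w, l2, ← im k w, ← im x] at e2
      exact e2.symm
    rw [e, kr _ _ (cl _ _ h)]
  have I4 : ∀ x w k, φ k = 1 → φ (x * (k * w)) = φ (x * (i k * w)) := by
    intro x w k hk
    by_cases c : φ (x * (k * w)) = φ (x * w)
    · rw [c, I4a x w k hk c]
    · refine tri _ _ _ _ _ (two x w x _ rfl (kl _ _ hk)) (two x w x w rfl rfl)
        (two x w x _ rfl (kl _ _ (ki k hk))) c (fun e => c ?_)
      have := I4a x w (i k) (ki k hk) e.symm
      rwa [ii] at this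
  have P : ∀ x y k, φ k = 1 → φ (x * (y * k)) = φ (x * y) := fun x y k hk => by
    have e1 := mr k y (x * i k)
    rw [r2] at e1
    have e2 := I1 x (k * (k * (y * k))) (i k) (ki k hk)
    rw [l1, ← e1, kr _ _ hk, I4 _ _ _ hk, l1] at e2
    exact e2.symm
  have Lc : ∀ x u v, φ u = φ v → φ (x * u) = φ (x * v) := fun x u v h => by
    have := P x u _ (cl u v h)
    rw [l2] at this
    exact this.symm
  exact ⟨fun u v h => ⟨cl u v h, cr u v h⟩, fun x u v h => ⟨Lc x u v h, T1 _ _ _ (Lc x u v h)⟩⟩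

end

theorem result {Q Q' : Type*} [Mul Q] [One Q] [Mul Q'] [One Q'] (hQ : IsLoop Q)
    (hM : ∀ x y z : Q, x * (y * (x * z)) = ((x * y) * x) * z) (hQ' : IsLoop Q') (φ : Q → Q')
    (hφ : ∀ a b, φ (a * b) = φ a * φ b ∨ φ (a * b) = φ b * φ a) :
    IsNormalSubloop {a | φ a = 1} := by
  obtain ⟨i, M⟩ := exists_MF hQ hM
  obtain ⟨c, g⟩ := main M hQ' hφ
  have h1 := hQ.1
  have e1 : φ 1 = 1 := by
    have := (c 1 1 rfl).1
    have e := M.l1 1 1
    rw [(h1 1).1] at e
    rwa [e] at this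
  have kl : ∀ k u, φ k = 1 → φ (k * u) = φ u := fun k u hk => by
    have := (g u k 1 (hk.trans e1.symm)).2
    rwa [(h1 u).1] at this
  have kr : ∀ k u, φ k = 1 → φ (u * k) = φ u := fun k u hk => by
    have := (g u k 1 (hk.trans e1.symm)).1
    rwa [(h1 u).2] at this
  have A : ∀ u, (fun k => u * k) '' {a | φ a = 1} = {v | φ v = φ u} := fun u => by
    ext v
    constructor
    · rintro ⟨k, hk, rfl⟩; exact kr k u hk
    · intro h; exact ⟨i u * v, (c u v h.symm).1, M.l2 _ _⟩
  have B : ∀ u, (fun k => k * u) '' {a | φ a = 1} = {v | φ v = φ u} := fun u => by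
    ext v
    constructor
    · rintro ⟨k, hk, rfl⟩; exact kl k u hk
    · intro h; exact ⟨v * i u, (c u v h.symm).2, M.r2 _ _⟩
  refine ⟨e1, fun a ha b hb => (kl a b ha).trans hb, fun a ha x hx => (kl a x ha).symm.trans hx,
    fun a ha y hy => (kr a y ha).symm.trans hy, fun x y => ⟨by rw [A, B], ?_, ?_⟩⟩
  · rw [A]
    ext v
    constructor
    · rintro ⟨k, hk, rfl⟩; exact (g x _ _ (kr k y hk)).1
    · intro h
      have e := (g (i x) _ _ h).1
      rw [M.l1] at e
      exact ⟨i y * (i x * v), (c _ _ e.symm).1, by simp only [M.l2]⟩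
  · rw [B]
    ext v
    constructor
    · rintro ⟨k, hk, rfl⟩; exact (g y _ _ (kl k x hk)).2
    · intro h
      have e := (g (i y) _ _ h).2
      rw [M.r1] at e
      exact ⟨(v * i y) * i x, (c _ _ e.symm).2, by simp only [M.r2]⟩

end Pool.Agent.Results.MP_d39372_al.HalfKer
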